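import Mathlib
import Pool.Agent.TTS.Main
import Pool.Agent.UNI.Final
import Pool.Agent.WRM.T1
import Pool.Agent.WRM.T2

/-!
The conjecture of Birch and Swinnerton-Dyer modulo `l` for the abelian surfaces `Res_(K/ℚ) E`, for all elliptic
curves `E` over an imaginary quadratic field `K` with complex multiplication by the ring of integers of `K` and a
`K`-rational point of prime order `l`, where `l` divides the number of units; and the exact proportion of the
surfaces which satisfy the `l`-part of the strong conjecture in its simplest form.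
-/

set_option autoImplicit false

open NumberField Filter Topology
open scoped Classical

namespace Pool.Agent.Results.MP_dfae13_nt.UniformCM

/-- The nine pairs `(n, j)` such that `ℚ(√-n)` has class number one and `j` is the `j`-invariant of the elliptic
curves with complex multiplication by the ring of integers of `ℚ(√-n)`. (Every elliptic curve over an imaginary
quadratic field `K` with complex multiplication by the ring of integers of `K` is of this kind.) -/
def IsCMPair (n : ℕ) (j : ℤ) : Prop :=
  (n = 1 ∧ j = 1728) ∨ (n = 2 ∧ j = 8000) ∨ (n = 3 ∧ j = 0) ∨ (n = 7 ∧ j = -3375) ∨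
    (n = 11 ∧ j = -32768) ∨ (n = 19 ∧ j = -884736) ∨ (n = 43 ∧ j = -884736000) ∨
    (n = 67 ∧ j = -147197952000) ∨ (n = 163 ∧ j = -262537412640768000)

/-- `E` has a point of order `l` over `K` (`l` a prime number). -/
def HasPoint (l : ℕ) {K : Type} [Field K] [NumberField K] (E : WeierstrassCurve K) : Prop :=
  ∃ P : E.toAffine.Point, P ≠ 0 ∧ l • P = 0

/-- All points of order `2` of `E` are defined over `K` (`E` has two different `K`-points of order `2`). -/
def HasFullTwo {K : Type} [Field K] [NumberField K] (E : WeierstrassCurve K) : Prop :=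
  ∃ P Q : E.toAffine.Point, P ≠ 0 ∧ Q ≠ 0 ∧ P ≠ Q ∧ P + P = 0 ∧ Q + Q = 0

/-- `E` has a Weierstrass equation with coefficients in the ring of integers of `K` whose discriminant has
norm at most `X`. For the fields below (which have class number one), this means that the norm of the
minimal discriminant of `E` is at most `X`. -/
def MinDiscLE {K : Type} [Field K] [NumberField K] (E : WeierstrassCurve K) (X : ℕ) : Prop :=
  ∃ (M : WeierstrassCurve (𝓞 K)) (C : WeierstrassCurve.VariableChange K),
    E = C • M.map (algebraMap (𝓞 K) K) ∧ Ideal.absNorm (Ideal.span {M.Δ}) ≤ X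

/-- The isomorphism classes over `K` of the elliptic curves over `K` with `j`-invariant `j` and
minimal discriminant of norm at most `X` which contain a curve `E` (given by a Weierstrass equation) with
the property `P`. -/
def classes (K : Type) [Field K] [NumberField K] (j : K) (P : WeierstrassCurve K → Prop) (X : ℕ) :
    Set (MulAction.orbitRel.Quotient (WeierstrassCurve.VariableChange K) (WeierstrassCurve K)) :=
  {c | ∃ E : WeierstrassCurve K, Quotient.mk _ E = c ∧ (∃ _ : E.IsElliptic, E.j = j) ∧
    MinDiscLE E X ∧ P E}

/-- The limits of the proportions: about 0.419 for `n = 1`, `l = 2` and for `n = 2`, `l = 2`; 0.569 for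
`n = 3`, `l = 2`; 0.639 for `n = 3`, `l = 3`; 0.289 for `n = 7`, `l = 2`. -/
noncomputable def limit (n l : ℕ) : ℝ :=
  if l = 3 then (∏' k : ℕ, (1 + (1 / 3 : ℝ) ^ (k + 1)))⁻¹
  else if n = 7 then ∏' k : ℕ, (1 - (1 / 2 : ℝ) ^ (k + 1))
  else if n = 3 then (∏' k : ℕ, (1 + (1 / 2 : ℝ) ^ (2 * k + 1)))⁻¹
  else (∏' k : ℕ, (1 + (1 / 2 : ℝ) ^ (k + 1)))⁻¹

/-- **The conjecture of Birch and Swinnerton-Dyer modulo `l`** for the abelian surface `A = Res_(K/ℚ) E`
(`K` quadratic), for all finite sets `S` of prime numbers outside of which `A` has good reduction (and there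
are such sets): `L_S(A, s)` extends to an entire function `L`; the quotient
`L(1) #A(ℚ)_tors #A'(ℚ)_tors / (V_∞ V_bad)` (which the conjecture asserts to be the order of the
Tate–Shafarevich group if `A(ℚ)` is finite, and `0` if `A(ℚ)` is infinite) is a rational number `q` without
`l` in the denominator; and `q` is an `l`-adic unit if and only if `A(ℚ)` is finite and the Tate–Shafarevich
group of `A` has no element of order `l`. -/
def SurfaceModPrime (l : ℕ) {K : Type} [Field K] [NumberField K] (E : WeierstrassCurve K) : Prop :=
  (∃ S, WR.IsBadSet E S) ∧ ∀ S : Finset ℕ, WR.IsBadSet E S →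
    ∃ L : ℂ → ℂ, WR.IsEntireL E S L ∧
      ∃ q : ℚ, WeilRes.bsdQuotient E S (L 1) = q ∧ 0 ≤ padicValRat l q ∧
        ((q ≠ 0 ∧ padicValRat l q = 0) ↔
          (Finite (WeilRes.RatPt E) ∧
            ∀ x : WeilRes.Sha E (AlgebraicClosure ℚ), l • x = 0 → x = 0))

/-- The rank conjecture and the `l`-part of the Birch and Swinnerton-Dyer formula, with rank `0`, for the
abelian surface `A = Res_(K/ℚ) E` (`K` quadratic), for all finite sets `S` of prime numbers outside of
which `A` has good reduction (and there are such sets). -/
def SurfaceFormula (l : ℕ) {K : Type} [Field K] [NumberField K] (E : WeierstrassCurve K) : Prop :=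
  (∃ S, WR.IsBadSet E S) ∧ ∀ S : Finset ℕ, WR.IsBadSet E S → WeilRes.PartFormula E l S

theorem surfaceModPrime_of {l : ℕ} {K : Type} [Field K] [NumberField K] {E : WeierstrassCurve K}
    (h : UNI.ModEll l E) : SurfaceModPrime l E := by
  obtain ⟨h1, L, hL, q, hq, hi, hiff⟩ := h
  exact ⟨TTS.exists_badSet E (E.isUnit_Δ.ne_zero), fun S hS => WRM.modPart_of E hS hL hq hi hiff⟩

theorem surfaceFormula_iff {l : ℕ} {K : Type} [Field K] [NumberField K] {E : WeierstrassCurve K}
    (h : UNI.ModEll l E) : SurfaceFormula l E ↔ UNI.FinEll l E := by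
  constructor
  · rintro ⟨⟨S, hS⟩, h1⟩
    obtain ⟨h2, L, -, -, -, h3, -⟩ := h1 S hS
    exact ⟨(WRM.finite_iff E).1 h2, (WRM.sha_iff E l).1 fun x hx => h3 x 1 (by rw [pow_one]; exact hx)⟩
  · intro h1
    obtain ⟨hell, hfin, Lf, hL, -, hL3, hsha, q, hq, hql, hq1⟩ := h.part_of h1
    exact ⟨TTS.exists_badSet E (E.isUnit_Δ.ne_zero),
      fun S hS => WeilRes.partFormula_of _ l S hS hfin Lf hL hL3 hsha q hq hql hq1⟩

/-- Let `K` be an imaginary quadratic field (a subfield of `ℂ`), `l` a prime number which divides the order of the
group of units of the ring of integers of `K` (that is: `K` contains the `l`-th roots of unity), and consider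
ALL elliptic curves `E` over `K` with complex multiplication by the ring of integers of `K` which have a
`K`-rational point of order `l`. (By the theorem of Heegner, Baker and Stark `K = ℚ(√-n)` and the `j`-invariant
is `j`, for one of the nine pairs `(n, j)` of `IsCMPair`. The primes `l` are excluded in the theorems of Rubin
on these curves.)

(a) For EVERY such curve the abelian surface `A = Res_(K/ℚ) E` over `ℚ` satisfies the conjecture of Birch and
Swinnerton-Dyer modulo `l` (`SurfaceModPrime` above).

(b) The rank conjecture and the `l`-part of the Birch and Swinnerton-Dyer formula with rank `0`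
(`SurfaceFormula` above), for a positive proportion of these surfaces, which is exactly known:
There are such curves only for `n = 1, 2, 7`, `l = 2` (then EVERY curve `E` has a point of order `2`) and for
`n = 3`, `l = 2` or `l = 3` (the last two assertions of the theorem). For these `n`, the number of isomorphism classes with
minimal discriminant of norm at most `X` is finite and tends to infinity with `X`, and the proportion of the
classes with this property TENDS TO `limit n l` (about 0.419 for `n = 1, 2`, `l = 2`; 0.569 for `n = 3`, `l = 2`;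
0.639 for `n = 3`, `l = 3`; 0.289 for `n = 7`, `l = 2`).

(c) For `n = 1` (so `l = 2`), assertion (b) holds also, with the same limit, for the curves all of whose points of
order `2` are rational over `K` (a family of density zero among all curves, for which (b) says nothing). -/
theorem result (K : IntermediateField ℚ ℂ) [NumberField K] (hK : Module.finrank ℚ K = 2)
    (n : ℕ) (j : ℤ) (h : IsCMPair n j) (hr : ∃ r : K, r ^ 2 = -(n : K))
    (l : ℕ) (hl : l.Prime) (hz : ∃ ζ : K, IsPrimitiveRoot ζ l) :
    (∀ E : WeierstrassCurve K, (∃ _ : E.IsElliptic, E.j = (j : K)) → HasPoint l E → SurfaceModPrime l E) ∧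
    ((n = 1 ∨ n = 2 ∨ n = 3 ∨ n = 7) →
      (∀ X : ℕ, (classes K j (HasPoint l) X).Finite) ∧
      Tendsto (fun X => (classes K j (HasPoint l) X).ncard) atTop atTop ∧
      Tendsto (fun X => ((classes K j (fun E => HasPoint l E ∧ SurfaceFormula l E) X).ncard : ℝ) /
        ((classes K j (HasPoint l) X).ncard : ℝ)) atTop (𝓝 (limit n l))) ∧
    (n = 1 →
      (∀ X : ℕ, (classes K j HasFullTwo X).Finite) ∧
      Tendsto (fun X => (classes K j HasFullTwo X).ncard) atTop atTop ∧
      Tendsto (fun X => ((classes K j (fun E => HasFullTwo E ∧ SurfaceFormula l E) X).ncard : ℝ) /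
        ((classes K j HasFullTwo X).ncard : ℝ)) atTop (𝓝 (limit 1 2))) ∧
    ((n = 1 ∨ n = 2 ∨ n = 7) →
      ∀ E : WeierstrassCurve K, (∃ _ : E.IsElliptic, E.j = (j : K)) → HasPoint l E) ∧
    (¬ (n = 1 ∨ n = 2 ∨ n = 3 ∨ n = 7) →
      ∀ E : WeierstrassCurve K, (∃ _ : E.IsElliptic, E.j = (j : K)) → ¬ HasPoint l E) := by
  exact UNI.final K hK (PA := SurfaceModPrime l) (PB := SurfaceFormula l) (fun _ h => surfaceModPrime_of h)
    (fun _ h => surfaceFormula_iff h) n j h hr hl hz

end Pool.Agent.Results.MP_dfae13_nt.UniformCM
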